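import Mathlib

set_option autoImplicit false

/-!
# Square roots modulo a normal subgroup

`A` abelian, `x` inverts `A`: in a coset `g A` the equation `h ^ 2 = c` has at most `|C_A(g x)|`
solutions. So if the elements outside `P` have small centralizers, the number of `h` with
`h ^ 2 ∈ S` is at most `|P| + [G : A] |S| γ`.
-/

namespace Pool.Agent.H9.FIN

variable {G : Type} [Group G] [Finite G]

omit [Finite G] in
/-- Solutions of `h ^ 2 = c` in one coset: if `h₀` is one, all the others are `h₀ a` with `a`
commuting with `h₀ x`. -/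
theorem sq_coset {A : Subgroup G} {x : G} (hx : ∀ a ∈ A, x * a * x⁻¹ = a⁻¹) {h a : G} (ha : a ∈ A)
    (hsq : (h * a) ^ 2 = h ^ 2) : h * x * a = a * (h * x) := by
  have h1 : h * a * (h * a) = h * h := by simpa [sq] using hsq
  have h2 : a * h * a = h := by
    have h3 : h * (a * h * a) = h * h := by rw [← h1]; group
    exact mul_left_cancel h3
  have h4 : x * a = a⁻¹ * x := by
    have := hx a ha
    rw [← this]
    group
  calc h * x * a = h * (x * a) := by group
    _ = h * (a⁻¹ * x) := by rw [h4]
    _ = (a * h * a) * (a⁻¹ * x) := by rw [h2]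
    _ = a * (h * x) := by group

/-- (E2) -/
theorem card_sq_mem (A P S : Subgroup G) (x : G) (hx : ∀ a ∈ A, x * a * x⁻¹ = a⁻¹) (γ : ℕ)
    (hP : ∀ g : G, g ∉ P → Nat.card (Subgroup.centralizer ({g} : Set G)) ≤ γ) :
    Nat.card {h : G // h ^ 2 ∈ S} ≤ Nat.card P + A.index * Nat.card S * γ := by
  classical
  have := Fintype.ofFinite G
  have h0 : Nat.card {h : G // h ^ 2 ∈ S} = (Finset.univ.filter fun h : G => h ^ 2 ∈ S).card := by
    rw [Nat.card_eq_fintype_card, Fintype.card_subtype]
  have hsub : (Finset.univ.filter fun h : G => h ^ 2 ∈ S) ⊆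
      (Finset.univ.filter fun h : G => h * x ∈ P) ∪
        (Finset.univ.filter fun h : G => h ^ 2 ∈ S ∧ h * x ∉ P) := by
    intro h hh
    rw [Finset.mem_filter] at hh
    rw [Finset.mem_union, Finset.mem_filter, Finset.mem_filter]
    by_cases hp : h * x ∈ P
    · exact Or.inl ⟨hh.1, hp⟩
    · exact Or.inr ⟨hh.1, hh.2, hp⟩
  have h1 : (Finset.univ.filter fun h : G => h * x ∈ P).card ≤ Nat.card P := by
    have e : Nat.card P = (Finset.univ.filter fun h : G => h ∈ P).card := by
      rw [Nat.card_eq_fintype_card, Fintype.card_subtype]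
    rw [e]
    refine Finset.card_le_card_of_injOn (fun h => h * x) ?_ ?_
    · intro h hh
      simp only [Finset.coe_filter, Finset.mem_univ, true_and, Set.mem_ofPred_eq] at hh ⊢
      exact hh
    · intro a _ b _ hab
      exact mul_right_cancel hab
  -- the map `h ↦ (h A, h ^ 2)` has fibres of size `≤ γ`
  have h2 : (Finset.univ.filter fun h : G => h ^ 2 ∈ S ∧ h * x ∉ P).card ≤
      A.index * Nat.card S * γ := by
    set T : Finset G := Finset.univ.filter fun h : G => h ^ 2 ∈ S ∧ h * x ∉ P with hT
    set U : Finset ((G ⧸ A) × G) := Finset.univ ×ˢ (Finset.univ.filter fun g : G => g ∈ S) with hU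
    have hUc : U.card = A.index * Nat.card S := by
      rw [hU, Finset.card_product, Finset.card_univ, Subgroup.index_eq_card,
        Nat.card_eq_fintype_card, Nat.card_eq_fintype_card, Fintype.card_subtype]
    have hmap : ∀ h ∈ T, ((QuotientGroup.mk h : G ⧸ A), h ^ 2) ∈ U := by
      intro h hh
      rw [hT, Finset.mem_filter] at hh
      rw [hU, Finset.mem_product]
      exact ⟨Finset.mem_univ _, Finset.mem_filter.2 ⟨Finset.mem_univ _, hh.2.1⟩⟩
    have hfib : ∀ u ∈ U, (T.filter fun h => ((QuotientGroup.mk h : G ⧸ A), h ^ 2) = u).card ≤ γ := by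
      intro u _
      rcases (T.filter fun h => ((QuotientGroup.mk h : G ⧸ A), h ^ 2) = u).eq_empty_or_nonempty with
        he | ⟨h, hh⟩
      · rw [he]; exact Nat.zero_le _
      · rw [Finset.mem_filter] at hh
        have hhP : h * x ∉ P := by
          have := hh.1
          rw [hT, Finset.mem_filter] at this
          exact this.2.2
        refine le_trans ?_ (hP _ hhP)
        have e : Nat.card (Subgroup.centralizer ({h * x} : Set G)) =
            (Finset.univ.filter fun a : G => a ∈ Subgroup.centralizer ({h * x} : Set G)).card := by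
          rw [Nat.card_eq_fintype_card, Fintype.card_subtype]
        rw [e]
        refine Finset.card_le_card_of_injOn (fun k => h⁻¹ * k) ?_ ?_
        · intro k hk
          simp only [Finset.coe_filter, Set.mem_ofPred_eq] at hk
          simp only [Finset.coe_filter, Finset.mem_univ, true_and, Set.mem_ofPred_eq]
          have h3 : (QuotientGroup.mk h : G ⧸ A) = QuotientGroup.mk k ∧ h ^ 2 = k ^ 2 := by
            have := hh.2.trans hk.2.symm
            exact ⟨congrArg Prod.fst this, congrArg Prod.snd this⟩
          have h4 : h⁻¹ * k ∈ A := QuotientGroup.eq.1 h3.1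
          rw [Subgroup.mem_centralizer_singleton_iff]
          have h5 := sq_coset hx h4 (h := h) (by rw [mul_inv_cancel_left]; exact h3.2.symm)
          exact h5.symm
        · intro a _ b _ hab
          exact mul_left_cancel hab
    calc T.card ≤ ∑ u ∈ U, (T.filter fun h => ((QuotientGroup.mk h : G ⧸ A), h ^ 2) = u).card :=
          le_of_eq (Finset.card_eq_sum_card_fiberwise hmap)
      _ ≤ ∑ _u ∈ U, γ := Finset.sum_le_sum hfib
      _ = A.index * Nat.card S * γ := by rw [Finset.sum_const, smul_eq_mul, hUc]
  rw [h0]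
  calc _ ≤ _ := Finset.card_le_card hsub
    _ ≤ _ := Finset.card_union_le _ _
    _ ≤ _ := Nat.add_le_add h1 h2

end Pool.Agent.H9.FIN
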