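import Mathlib

set_option autoImplicit false

/-!
# A centralizer bound

If `g h₀` is conjugate into `⟨c⟩` for some `h₀` in the normal subgroup `S`, then there are at least
`|C_G(g)|` pairs `(h, x)`, `h ∈ S`, with `x⁻¹ g h x ∈ ⟨c⟩`: conjugate `h₀` and translate `x₀` by the
elements of the centralizer.
-/

namespace Pool.Agent.H9.FIN

variable {G : Type} [Group G]

theorem card_centralizer_le [Finite G] (S : Subgroup G) [S.Normal] (C : Subgroup G) (g h₀ x₀ : G)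
    (hh : h₀ ∈ S) (hx : x₀⁻¹ * (g * h₀) * x₀ ∈ C) :
    Nat.card (Subgroup.centralizer ({g} : Set G)) ≤
      Nat.card {p : G × G // p.1 ∈ S ∧ p.2⁻¹ * (g * p.1) * p.2 ∈ C} := by
  refine Nat.card_le_card_of_injective
    (fun y : Subgroup.centralizer ({g} : Set G) =>
      (⟨((y : G) * h₀ * (y : G)⁻¹, (y : G) * x₀), ?_, ?_⟩ :
        {p : G × G // p.1 ∈ S ∧ p.2⁻¹ * (g * p.1) * p.2 ∈ C})) ?_
  · exact Subgroup.Normal.conj_mem inferInstance h₀ hh y
  · have hy := Subgroup.mem_centralizer_singleton_iff.1 y.2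
    have h1 : (y : G)⁻¹ * g = g * (y : G)⁻¹ := by
      rw [inv_mul_eq_iff_eq_mul, ← mul_assoc, hy, mul_inv_cancel_right]
    have h2 : ((y : G) * x₀)⁻¹ * (g * ((y : G) * h₀ * (y : G)⁻¹)) * ((y : G) * x₀) =
        x₀⁻¹ * (g * h₀) * x₀ := by
      calc ((y : G) * x₀)⁻¹ * (g * ((y : G) * h₀ * (y : G)⁻¹)) * ((y : G) * x₀) =
            x₀⁻¹ * ((y : G)⁻¹ * g) * (y : G) * h₀ * x₀ := by group
        _ = x₀⁻¹ * (g * (y : G)⁻¹) * (y : G) * h₀ * x₀ := by rw [h1]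
        _ = x₀⁻¹ * (g * h₀) * x₀ := by group
    change ((y : G) * x₀)⁻¹ * (g * ((y : G) * h₀ * (y : G)⁻¹)) * ((y : G) * x₀) ∈ C
    rw [h2]
    exact hx
  · intro y y' h
    have h1 : (y : G) * x₀ = (y' : G) * x₀ := congrArg (fun p => p.1.2) h
    exact Subtype.ext (mul_right_cancel h1)

end Pool.Agent.H9.FIN
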